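import Pool.Agent.TH957.PB.Alt

/-!
# A polynomial measure for the pair `ζ(3)/π³`, `8 G - π⁵/(18 ζ(3)) ± (2/3) π²`

`G = ∑ (-1)^j/(2j+1)^2` is Catalan's constant and `ζ(3) = ∑ 1/(j+1)^3`.
-/

set_option autoImplicit false

namespace Pool.Agent.Results.MP_e47f08_nt.AlternativePolynomial

/-- Let `ε = 1` or `ε = -1` and `X = 8 G - π⁵/(18 ζ(3)) + ε (2/3) π²`.
(1) There is `c > 0` such that for all integers `a`, `s` and `q, t ≥ 1` one of `|ζ(3)/π³ - s/t|`, `|X - a/q|` is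
at least `c / (q t)^2000`.
(2) Either `ζ(3)/π³` is irrational, or there is `c > 0` with `|X - a/q| ≥ c / q^2000` for all integers `a` and
`q ≥ 1`. -/
theorem result : ∀ ε : ℝ, (ε = 1 ∨ ε = -1) →
    (∃ c : ℝ, 0 < c ∧ ∀ a s : ℤ, ∀ q t : ℕ, 1 ≤ q → 1 ≤ t →
      c / ((q : ℝ) * t) ^ 2000 ≤
        max |(∑' j : ℕ, 1 / ((j : ℝ) + 1) ^ 3) / Real.pi ^ 3 - (s : ℝ) / (t : ℝ)|
          |8 * (∑' j : ℕ, (-1 : ℝ) ^ j / (2 * (j : ℝ) + 1) ^ 2)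
            - Real.pi ^ 5 / (18 * (∑' j : ℕ, 1 / ((j : ℝ) + 1) ^ 3)) + ε * (2 / 3 * Real.pi ^ 2)
            - (a : ℝ) / (q : ℝ)|) ∧
    (Irrational ((∑' j : ℕ, 1 / ((j : ℝ) + 1) ^ 3) / Real.pi ^ 3) ∨
      ∃ c : ℝ, 0 < c ∧ ∀ a : ℤ, ∀ q : ℕ, 1 ≤ q →
        c / (q : ℝ) ^ 2000 ≤
          |8 * (∑' j : ℕ, (-1 : ℝ) ^ j / (2 * (j : ℝ) + 1) ^ 2)
            - Real.pi ^ 5 / (18 * (∑' j : ℕ, 1 / ((j : ℝ) + 1) ^ 3)) + ε * (2 / 3 * Real.pi ^ 2)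
            - (a : ℝ) / (q : ℝ)|) := by
  intro ε hε
  have key := Pool.Agent.TH957.PB.alt ε hε
  unfold Pool.Agent.W34.GB.GC Pool.Agent.W34.GB.Z3 at key
  generalize (∑' j : ℕ, 1 / ((j : ℝ) + 1) ^ 3) = Z at key ⊢
  generalize (∑' j : ℕ, (-1 : ℝ) ^ j / (2 * (j : ℝ) + 1) ^ 2) = G at key ⊢
  obtain ⟨c, hc, h⟩ := key
  have h1 : ∀ a s : ℤ, ∀ q t : ℕ, 1 ≤ q → 1 ≤ t →
      c / ((q : ℝ) * t) ^ 2000 ≤
        max |Z / Real.pi ^ 3 - (s : ℝ) / (t : ℝ)|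
          |8 * G - Real.pi ^ 5 / (18 * Z) + ε * (2 / 3 * Real.pi ^ 2) - (a : ℝ) / (q : ℝ)| := by
    intro a s q t hq ht
    have h2 := h a s q t (by omega) (by omega)
    have hq0 : (0 : ℝ) < (q : ℝ) := by exact_mod_cast (by omega : 0 < q)
    have ht0 : (0 : ℝ) < (t : ℝ) := by exact_mod_cast (by omega : 0 < t)
    have hM : 0 < (q : ℝ) * t := mul_pos hq0 ht0
    have e : ((q : ℝ) * t) ^ (-(2000 : ℝ)) = 1 / ((q : ℝ) * t) ^ 2000 := by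
      rw [Real.rpow_neg hM.le, one_div]
      congr 1
      exact_mod_cast Real.rpow_natCast ((q : ℝ) * t) 2000
    simp only [Int.cast_natCast] at h2
    rw [e, mul_one_div] at h2
    exact h2
  refine ⟨⟨c, hc, h1⟩, ?_⟩
  by_cases hI : Irrational (Z / Real.pi ^ 3)
  · exact Or.inl hI
  right
  obtain ⟨s, hs⟩ : ∃ s : ℚ, (s : ℝ) = Z / Real.pi ^ 3 := by
    unfold Irrational at hI
    push Not at hI
    exact hI
  have hd : (0 : ℝ) < (s.den : ℝ) := by exact_mod_cast s.den_pos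
  have hr : (s : ℝ) = (s.num : ℝ) / (s.den : ℝ) := by exact_mod_cast (Rat.num_div_den s).symm
  refine ⟨c / (s.den : ℝ) ^ 2000, by positivity, fun a q hq => ?_⟩
  have h2 := h1 a s.num q s.den hq s.den_pos
  have e1 : Z / Real.pi ^ 3 - (s.num : ℝ) / (s.den : ℝ) = 0 := by
    rw [← hs, hr, sub_self]
  have e2 : c / (s.den : ℝ) ^ 2000 / (q : ℝ) ^ 2000 = c / ((q : ℝ) * s.den) ^ 2000 := by
    rw [div_div, mul_pow, mul_comm ((s.den : ℝ) ^ 2000)]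
  rw [e1, abs_zero, max_eq_right (abs_nonneg _)] at h2
  rw [e2]
  exact h2

end Pool.Agent.Results.MP_e47f08_nt.AlternativePolynomial
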