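import Pool.Agent.TH818.AP.Mv3
import Pool.Agent.TH818.AP.Hz

/-!
# `π` and values of Hurwitz zeta functions at almost all rational points
-/

set_option autoImplicit false

namespace Pool.Agent.Results.MP_e47f08_nt.HurwitzValues

/-- The Hurwitz zeta function `ζ(k, t) = ∑_{n ≥ 0} (t + n)^(-k)`, for integers `k ≥ 2` and `t > 0`; `ζ(k, 1) = ζ(k)`. -/
noncomputable def hurwitz (k : ℕ) (t : ℝ) : ℝ := ∑' n : ℕ, 1 / (t + n) ^ k

/-- The `n + 1` numbers `π`, `ζ(k_1, q_1)`, …, `ζ(k_n, q_n)`. -/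
noncomputable def numbers {n : ℕ} (k : Fin n → ℕ) (q : Fin n → ℚ) (x : Option (Fin n)) : ℝ :=
  match x with
  | none => Real.pi
  | some j => hurwitz (k j) (q j)

/-- The `n`-tuples `q` of rational numbers, `q_j` in `[a_j, b_j]`, with denominators at most `T` for which some nonzero
polynomial in `n + 1` variables with integer coefficients of absolute value at most `T ^ A`, of degree at most `d` in
each variable, takes at `π`, `ζ(k_1, q_1)`, …, `ζ(k_n, q_n)` a value of absolute value at most `T ^ (-B)`. -/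
def Exceptional {n : ℕ} (k : Fin n → ℕ) (d : ℕ) (a b : Fin n → ℝ) (A B T : ℝ) : Set (Fin n → ℚ) :=
  {q | (∀ j, a j ≤ q j ∧ q j ≤ b j ∧ ((q j).den : ℝ) ≤ T) ∧
    ∃ P : MvPolynomial (Option (Fin n)) ℤ, P ≠ 0 ∧ (∀ x, P.degreeOf x ≤ d) ∧
      (∀ s, |((P.coeff s : ℤ) : ℝ)| ≤ T ^ A) ∧ |MvPolynomial.aeval (numbers k q) P| ≤ T ^ (-B)}

/-- Let `n ≥ 1`, `k_1, …, k_n ≥ 2`, `0 < a_j < b_j`, `d`, `A ≥ 0` be given, and let
`β > 2 - 2 / ((d + 1)^(n + 1) + 1)`. There are `B` and `C` such that for all `T ≥ 1` the number of exceptional `n`-tuples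
is at most `C T^(2(n - 1) + β)`. -/
theorem result (n d : ℕ) (hn : 1 ≤ n) (k : Fin n → ℕ) (hk : ∀ j, 2 ≤ k j) (a b : Fin n → ℝ) (ha : ∀ j, 0 < a j)
    (hab : ∀ j, a j < b j) (A β : ℝ) (hA : 0 ≤ A) (hβ : 2 - 2 / (((d : ℝ) + 1) ^ (n + 1) + 1) < β) :
    ∃ B C : ℝ, ∀ T : ℝ, 1 ≤ T → (Exceptional k d a b A B T).Finite ∧
      ((Exceptional k d a b A B T).ncard : ℝ) ≤ C * T ^ (2 * ((n : ℝ) - 1) + β) := by
  obtain ⟨B, C, h⟩ := TH818.AP.polysJ (fun j => hurwitz (k j)) a b hab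
    (fun j t ht => TH818.AP.Hyp.hz_an (hk j) ((ha j).trans_le ht.1))
    (fun j => TH818.AP.Hyp.hz_indep (hk j) d (ha j) (hab j)) hn A β hA hβ
  refine ⟨B, C, fun T hT => ?_⟩
  have heq : ∀ q : Fin n → ℚ, (fun x : Option (Fin n) => x.elim Real.pi fun y => hurwitz (k y) (q y)) =
      numbers k q := by
    intro q
    funext x
    cases x <;> rfl
  have := h T hT
  simp only [heq] at this
  exact this

end Pool.Agent.Results.MP_e47f08_nt.HurwitzValues
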